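import Pool.Agent.N945.TC.Main

/-! Finitary 3-colourings of `ℤ^d`, `d ≥ 2`: the coding radius can have all moments of order
less than one, and never has a finite first moment.  The definitions are in
`Pool.Agent.N945.TC.Defs`. -/

namespace Pool.Agent.Results.MP_69ceda_pr.CriticalMoment

open MeasureTheory Pool.Agent.N945.TC
open scoped ENNReal

universe u

/-- For `d ≥ 2` the exponents `α > 0` for which some ffiid 3-colouring of `ℤ^d` has a coding radius
with finite `α`-moment are exactly those with `α < 1`; so the critical exponent is `1` and is not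
attained.  For `α < 1` the `α`-th power of the radius is even dominated by an integrable measurable
variable, and for every label law the coding radius `R` of every ffiid 3-colouring satisfies
`P(R > r) ≥ 1 / (240 (r + 1))` for all `r` and has infinite moments of all orders `≥ 1`. -/
theorem result (d : ℕ) (hd : 2 ≤ d) :
    (admissible d = Set.Ioo 0 1 ∧ alphaStar d = 1) ∧
    (∀ α : ℝ, 0 < α → α < 1 → ∃ F : (Site d → unitInterval) → Site d → Fin 3,
      IsFfiid3Coloring volume F ∧
      ∃ K : (Site d → unitInterval) → ℝ≥0∞, Measurable K ∧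
        (∀ᵐ y ∂(iidLaw d volume), ((codingRadius F y : ℕ∞) : ℝ≥0∞) ^ α ≤ K y) ∧
        ∫⁻ y, K y ∂(iidLaw d volume) < ⊤) ∧
    (∀ (T : Type u) [MeasurableSpace T] (μ : Measure T) [IsProbabilityMeasure μ]
      (F : (Site d → T) → Site d → Fin 3), IsFfiid3Coloring μ F →
      (∀ r : ℕ, ((240 * (r + 1) : ℕ) : ℝ≥0∞)⁻¹ ≤
        iidLaw d μ {y | (r : ℕ∞) < codingRadius F y}) ∧
      ∀ α : ℝ, 1 ≤ α → radiusMoment μ F α = ⊤) :=
  ⟨⟨admissible_eq hd, alphaStar_eq hd⟩, fun _ h0 h1 => exists_colouring d h0 h1,
    fun _ _ μ _ _ hF => ⟨tail_lower hd μ hF, fun _ hα => radiusMoment_top hd μ hF hα⟩⟩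

end Pool.Agent.Results.MP_69ceda_pr.CriticalMoment
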